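import Pool.Agent.Y314.RS.Inv

set_option autoImplicit false

open Finset Equiv

namespace Pool.Agent.Y314.RS

open Pool.Agent.Y105.RS

variable {V : Type} [Fintype V] [DecidableEq V]

omit [DecidableEq V] in
/-- sums over the functions of a function of one value -/
theorem sum1 {ι : Type} [Fintype ι] [DecidableEq ι] (i : ι) (F : V → ℝ) :
    (Fintype.card V : ℝ) * ∑ z : ι → V, F (z i) =
      (Fintype.card V : ℝ) ^ Fintype.card ι * ∑ v, F v := by
  have hinv : Function.Involutive
      (fun p : (ι → V) × V => (Function.update p.1 i p.2, p.1 i)) := by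
    rintro ⟨z, a⟩
    simp only [Function.update_self, Function.update_idem, Function.update_eq_self]
  have h1 := Equiv.sum_comp hinv.toPerm (fun p : (ι → V) × V => F p.2)
  simp only [Function.Involutive.coe_toPerm] at h1
  rw [Fintype.sum_prod_type, Fintype.sum_prod_type] at h1
  simp only [sum_const, card_univ, nsmul_eq_mul, Fintype.card_fun, Nat.cast_pow] at h1
  rw [← mul_sum] at h1
  exact h1

omit [DecidableEq V] in
/-- sums over the functions of a function of two values -/
theorem sum2 {ι : Type} [Fintype ι] [DecidableEq ι] (i j : ι) (hij : i ≠ j) (F : V → V → ℝ) :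
    (Fintype.card V : ℝ) ^ 2 * ∑ z : ι → V, F (z i) (z j) =
      (Fintype.card V : ℝ) ^ Fintype.card ι * ∑ v, ∑ w, F v w := by
  have hinv : Function.Involutive
      (fun p : (ι → V) × (V × V) =>
        (Function.update (Function.update p.1 i p.2.1) j p.2.2, (p.1 i, p.1 j))) := by
    rintro ⟨z, a, b⟩
    simp only [Function.update_self, Function.update_of_ne hij, Prod.mk.injEq]
    refine ⟨?_, trivial⟩
    funext l
    by_cases h1 : l = j
    · rw [h1, Function.update_self]
    · rw [Function.update_of_ne h1]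
      by_cases h2 : l = i
      · rw [h2, Function.update_self]
      · rw [Function.update_of_ne h2, Function.update_of_ne h1, Function.update_of_ne h2]
  have h1 := Equiv.sum_comp hinv.toPerm (fun p : (ι → V) × (V × V) => F p.2.1 p.2.2)
  simp only [Function.Involutive.coe_toPerm] at h1
  rw [Fintype.sum_prod_type, Fintype.sum_prod_type] at h1
  simp only [sum_const, card_univ, nsmul_eq_mul, Fintype.card_fun, Fintype.card_prod,
    Nat.cast_pow, Nat.cast_mul] at h1
  rw [← mul_sum, Fintype.sum_prod_type] at h1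
  rw [sq]
  exact h1

omit [DecidableEq V] in
/-- the number of functions with values in a set -/
theorem cntU {r : ℕ} (T : Finset V) (P : (Fin r → V) → Prop) [DecidablePred P]
    (hP : ∀ u, P u ↔ ∀ m, u m ∈ T) :
    ∑ u : Fin r → V, (if P u then (1 : ℝ) else 0) = (T.card : ℝ) ^ r := by
  classical
  rw [sum_boole]
  have h1 : (univ.filter P) = Fintype.piFinset (fun _ : Fin r => T) := by
    ext u
    rw [mem_filter, Fintype.mem_piFinset, hP u]
    simp
  rw [h1, Fintype.card_piFinset_const]
  push_cast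
  rfl

/-- comparison of a sum with an integral -/
theorem sum_pow_le (n r : ℕ) :
    ∑ t ∈ range n, ((n : ℝ) - t) ^ r ≤ (n : ℝ) ^ (r + 1) / (r + 1) + (n : ℝ) ^ r := by
  have h1 : ∑ t ∈ range n, ((n : ℝ) - t) ^ r = ∑ s ∈ range n, ((s : ℝ) + 1) ^ r := by
    rw [← sum_range_reflect]
    refine sum_congr rfl fun t ht => ?_
    have : t < n := mem_range.1 ht
    congr 1
    rw [show n - 1 - t = n - (t + 1) by omega, Nat.cast_sub (by omega)]
    push_cast
    ring
  rw [h1]
  clear h1
  induction n with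
  | zero =>
    simp
  | succ n ih =>
    rw [sum_range_succ]
    push_cast at ih ⊢
    have hb : (n : ℝ) ^ (r + 1) / (r + 1) + (n : ℝ) ^ r ≤ ((n : ℝ) + 1) ^ (r + 1) / (r + 1) := by
      have h2 : (0 : ℝ) < (r : ℝ) + 1 := by positivity
      rw [le_div_iff₀ h2, add_mul, div_mul_cancel₀ _ h2.ne']
      -- Bernoulli
      have h3 : ∀ m : ℕ, (n : ℝ) ^ (m + 1) + (n : ℝ) ^ m * (m + 1) ≤ ((n : ℝ) + 1) ^ (m + 1) := by
        intro m
        induction m with
        | zero => simp
        | succ m ihm =>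
          have h4 : (0 : ℝ) ≤ (n : ℝ) := Nat.cast_nonneg n
          have h5 : (0 : ℝ) ≤ (n : ℝ) ^ m := by positivity
          have h6 : (0 : ℝ) ≤ (m : ℝ) := Nat.cast_nonneg m
          rw [pow_succ ((n : ℝ) + 1) (m + 1)]
          have h7 : ((n : ℝ) ^ (m + 1) + (n : ℝ) ^ m * (m + 1)) * ((n : ℝ) + 1) ≤
              ((n : ℝ) + 1) ^ (m + 1) * ((n : ℝ) + 1) :=
            mul_le_mul_of_nonneg_right ihm (by positivity)
          refine le_trans ?_ h7
          push_cast
          have h8 : (0 : ℝ) ≤ (n : ℝ) ^ m * (m + 1) := by positivity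
          have h9 : (n : ℝ) ^ (m + 1 + 1) = (n : ℝ) ^ m * (n : ℝ) ^ 2 := by ring
          have h10 : (n : ℝ) ^ (m + 1) = (n : ℝ) ^ m * (n : ℝ) := by ring
          rw [h9, h10]
          nlinarith
      exact h3 r
    linarith

/-- the event that `b` comes after `a` in the `t`-th place and no `u` comes before -/
def CC {r : ℕ} (σ : Perm V) (t : ℕ) (a b : V) (u : Fin r → V) : Prop :=
  b = (σ ^ t) a ∧ (∀ s < t, ∀ s' < t, (σ ^ s) a = (σ ^ s') a → s = s') ∧
    ∀ m, ∀ s < t, u m ≠ (σ ^ s) a

open Classical in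
/-- the sum over `u` -/
theorem sumU_C {r : ℕ} (σ : Perm V) (t : ℕ) (ht : t ≤ Fintype.card V) (a b : V) :
    ∑ u : Fin r → V, (if CC σ t a b u then (1 : ℝ) else 0) ≤
      if b = (σ ^ t) a then ((Fintype.card V : ℝ) - t) ^ r else 0 := by
  by_cases hb : b = (σ ^ t) a
  · rw [if_pos hb]
    by_cases hinj : ∀ s < t, ∀ s' < t, (σ ^ s) a = (σ ^ s') a → s = s'
    · have h1 := cntU (r := r) (univ \ (range t).image (fun s => (σ ^ s) a)) (fun u => CC σ t a b u)
        (by
          intro u
          unfold CC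
          constructor
          · rintro ⟨_, _, h3⟩ m
            rw [mem_sdiff, mem_image]
            refine ⟨mem_univ _, ?_⟩
            rintro ⟨s, hs, h4⟩
            exact h3 m s (mem_range.1 hs) h4.symm
          · intro h
            refine ⟨hb, hinj, fun m s hs h4 => ?_⟩
            have := h m
            rw [mem_sdiff, mem_image] at this
            exact this.2 ⟨s, mem_range.2 hs, h4.symm⟩)
      rw [h1]
      apply le_of_eq
      congr 1
      rw [card_sdiff_of_subset (subset_univ _), card_image_of_injOn, card_range, card_univ,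
        Nat.cast_sub]
      · have h2 : ((range t).image (fun s => (σ ^ s) a)).card ≤ Fintype.card V := card_le_univ _
        rwa [card_image_of_injOn, card_range] at h2
        intro s hs s' hs' h
        exact hinj s (by simpa using hs) s' (by simpa using hs') h
      · intro s hs s' hs' h
        exact hinj s (by simpa using hs) s' (by simpa using hs') h
    · -- the sum is zero
      have h0 : ∑ u : Fin r → V, (if CC σ t a b u then (1 : ℝ) else 0) = 0 := by
        apply sum_eq_zero
        intro u _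
        rw [if_neg]
        rintro ⟨_, h, _⟩
        exact hinj h
      rw [h0]
      have : (t : ℝ) ≤ Fintype.card V := by exact_mod_cast ht
      exact pow_nonneg (by linarith) r
  · rw [if_neg hb]
    apply le_of_eq
    apply sum_eq_zero
    intro u _
    rw [if_neg]
    rintro ⟨h, _⟩
    exact hb h

omit [Fintype V] [DecidableEq V] in
theorem pow_add_apply (σ : Perm V) (p q : ℕ) (x : V) : (σ ^ p) ((σ ^ q) x) = (σ ^ (p + q)) x := by
  rw [← Perm.mul_apply, ← pow_add]

/-- the event `CC` occurs -/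
theorem cc_of {r : ℕ} (σ : Perm V) (D : Finset V) (u : Fin r → V) (hu : ∀ m, u m ∈ D) (a b : V)
    (N N' : ℕ) (hN : N' ≤ N) (h1 : (σ ^ N') b = (σ ^ N) a) (h2 : ∀ p < N, (σ ^ p) a ∉ D) :
    ∃ t < Fintype.card V, CC σ t a b u := by
  have h3 : ∃ t, b = (σ ^ t) a := ⟨N - N', pow_back σ hN _ _ h1⟩
  classical
  set t := Nat.find h3 with ht
  have ht1 : b = (σ ^ t) a := Nat.find_spec h3
  have ht2 : ∀ s < t, b ≠ (σ ^ s) a := fun s hs => Nat.find_min h3 hs
  have ht3 : t ≤ N - N' := Nat.find_min' h3 (pow_back σ hN _ _ h1)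
  have hlt : ∀ s < t, ∀ s' < t, s < s' → (σ ^ s) a ≠ (σ ^ s') a := by
    intro s hs s' hs' hss heq
    apply ht2 (t - (s' - s)) (by omega)
    rw [ht1]
    have e1 : t = (t - s') + s' := by omega
    have e2 : t - (s' - s) = (t - s') + s := by omega
    rw [e2, ← pow_add_apply, heq, pow_add_apply, ← e1]
  have hinj : ∀ s < t, ∀ s' < t, (σ ^ s) a = (σ ^ s') a → s = s' := by
    intro s hs s' hs' heq
    rcases lt_trichotomy s s' with h | h | h
    · exact absurd heq (hlt s hs s' hs' h)
    · exact h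
    · exact absurd heq.symm (hlt s' hs' s hs h)
  refine ⟨t, ?_, ht1, hinj, ?_⟩
  · have h4 : ((range t).image (fun s => (σ ^ s) a)) ⊆ univ.erase b := by
      intro y hy
      rw [mem_image] at hy
      obtain ⟨s, hs, rfl⟩ := hy
      rw [mem_erase]
      exact ⟨(ht2 s (mem_range.1 hs)).symm, mem_univ _⟩
    have h5 := card_le_card h4
    rw [card_image_of_injOn, card_range, card_erase_of_mem (mem_univ _), card_univ] at h5
    · have : 0 < Fintype.card V := Fintype.card_pos_iff.2 ⟨a⟩
      omega
    · intro s hs s' hs' h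
      exact hinj s (by simpa using hs) s' (by simpa using hs') h
  · intro m s hs heq
    exact h2 s (by omega) (heq ▸ hu m)

/-- the first point exists -/
theorem fwd_ex {r : ℕ} (σ : Perm V) (D : Finset V) (u : Fin r → V) (hu : ∀ m, u m ∈ D) (a : V)
    (h : ¬ ∀ m, ¬ σ.SameCycle a (u m)) :
    ∃ N, (σ ^ N) a ∈ D ∧ ∀ p < N, (σ ^ p) a ∉ D := by
  push Not at h
  obtain ⟨m, hm⟩ := h
  obtain ⟨N, hN⟩ := hm.exists_nat_pow_eq
  have h3 : ∃ N, (σ ^ N) a ∈ D := ⟨N, by rw [hN]; exact hu m⟩
  exact ⟨Nat.find h3, Nat.find_spec h3, fun p hp => Nat.find_min h3 hp⟩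

/-- when two points are not separated -/
theorem logic {r : ℕ} (σ : Perm V) (D : Finset V) (u : Fin r → V) (hu : ∀ m, u m ∈ D) (a b : V)
    (h : ¬ Sep σ D a b) : a ∈ D ∨ b ∈ D ∨ (∀ m, ¬ σ.SameCycle a (u m)) ∨
      (∀ m, ¬ σ.SameCycle b (u m)) ∨ (∃ t < Fintype.card V, CC σ t a b u) ∨
      ∃ t < Fintype.card V, CC σ t b a u := by
  by_contra hcon
  push Not at hcon
  obtain ⟨ha, hb, hA, hB, hC, hC'⟩ := hcon
  obtain ⟨N, hN1, hN2⟩ := fwd_ex σ D u hu a (by push Not; exact hA)
  obtain ⟨N', hN1', hN2'⟩ := fwd_ex σ D u hu b (by push Not; exact hB)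
  by_cases heq : (σ ^ N) a = (σ ^ N') b
  · rcases le_total N' N with h1 | h1
    · obtain ⟨t, ht1, ht2⟩ := cc_of σ D u hu a b N N' h1 heq.symm hN2
      exact hC t ht1 ht2
    · obtain ⟨t, ht1, ht2⟩ := cc_of σ D u hu b a N' N h1 heq hN2'
      exact hC' t ht1 ht2
  · exact h ⟨ha, hb, _, _, heq, ⟨hN1, N, rfl, hN2⟩, ⟨hN1', N', rfl, hN2'⟩⟩

theorem eq_count {ι : Type} [Fintype ι] [DecidableEq ι] [Nonempty V] (i l : ι) (hil : i ≠ l) :
    ∑ z : ι → V, (if z i = z l then (1 : ℝ) else 0) =
      (Fintype.card V : ℝ) ^ Fintype.card ι / Fintype.card V := by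
  have hn : (0 : ℝ) < Fintype.card V := by exact_mod_cast Fintype.card_pos
  have h1 := sum2 (V := V) i l hil (fun v w => if v = w then (1 : ℝ) else 0)
  have h2 : ∑ v : V, ∑ w : V, (if v = w then (1 : ℝ) else 0) = Fintype.card V := by
    have : ∀ v : V, ∑ w : V, (if v = w then (1 : ℝ) else 0) = 1 := by
      intro v
      rw [sum_ite_eq]
      simp
    simp only [this, sum_const, card_univ, nsmul_eq_mul, mul_one]
  rw [h2] at h1
  rw [eq_div_iff hn.ne']
  have : (Fintype.card V : ℝ) * ((∑ z : ι → V, (if z i = z l then (1 : ℝ) else 0)) *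
      (Fintype.card V : ℝ)) = (Fintype.card V : ℝ) * (Fintype.card V : ℝ) ^ Fintype.card ι := by
    linear_combination h1
  exact mul_left_cancel₀ hn.ne' this

theorem eq_count' {r : ℕ} [Nonempty V] (a : V) (m : Fin r) :
    ∑ u : Fin r → V, (if a = u m then (1 : ℝ) else 0) =
      (Fintype.card V : ℝ) ^ r / Fintype.card V := by
  have hn : (0 : ℝ) < Fintype.card V := by exact_mod_cast Fintype.card_pos
  have h1 := sum1 (V := V) m (fun v => if a = v then (1 : ℝ) else 0)
  rw [sum_ite_eq, if_pos (mem_univ _), mul_one, Fintype.card_fin] at h1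
  rw [eq_div_iff hn.ne']
  linarith

open Classical in
/-- the sum of the events `B` -/
theorem sumB [Nonempty V] (σ : Perm V) (k r K : ℕ) (i : Fin k) (hK : K ≤ Fintype.card V) :
    ∑ z : Fin k → V, ∑ u : Fin r → V,
        (if ∀ m, ¬ σ.SameCycle (z i) (u m) then (1 : ℝ) else 0) ≤
      (Fintype.card V : ℝ) ^ (k + r) * (small K σ + (1 - (K : ℝ) / Fintype.card V) ^ r) := by
  have hn : (0 : ℝ) < Fintype.card V := by exact_mod_cast Fintype.card_pos
  set n : ℝ := (Fintype.card V : ℝ) with hn'
  have hKn : (K : ℝ) ≤ n := by rw [hn']; exact_mod_cast hK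
  have h1 : ∀ z : Fin k → V, ∑ u : Fin r → V,
      (if ∀ m, ¬ σ.SameCycle (z i) (u m) then (1 : ℝ) else 0) ≤
        (fun v => (if cl σ v ≤ K then (1 : ℝ) else 0) * n ^ r + (n - K) ^ r) (z i) := by
    intro z
    rw [cntU (r := r) (univ.filter fun v => ¬ σ.SameCycle (z i) v)
      (fun u => ∀ m, ¬ σ.SameCycle (z i) (u m)) (by
        intro u
        simp only [mem_filter, mem_univ, true_and])]
    simp only
    have h2 : ((univ.filter fun v => ¬ σ.SameCycle (z i) v).card : ℝ) = n - cl σ (z i) := by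
      have h3 := card_filter_add_card_filter_not (s := (univ : Finset V))
        (p := fun v => σ.SameCycle (z i) v)
      rw [card_univ] at h3
      have h4 : cl σ (z i) = (univ.filter fun v => σ.SameCycle (z i) v).card := by
        unfold cl
        rw [Nat.card_eq_fintype_card, Fintype.card_subtype]
      rw [h4, hn', ← h3]
      push_cast
      ring
    have h0 : (0 : ℝ) ≤ ((univ.filter fun v => ¬ σ.SameCycle (z i) v).card : ℝ) :=
      Nat.cast_nonneg _
    have h5 : (0 : ℝ) ≤ (n - K) ^ r := pow_nonneg (by linarith) r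
    have h6 : (0 : ℝ) ≤ (cl σ (z i) : ℝ) := Nat.cast_nonneg _
    by_cases hc : cl σ (z i) ≤ K
    · rw [if_pos hc, one_mul]
      have : ((univ.filter fun v => ¬ σ.SameCycle (z i) v).card : ℝ) ^ r ≤ n ^ r :=
        pow_le_pow_left₀ h0 (by rw [h2]; linarith) r
      linarith
    · rw [if_neg hc, zero_mul, zero_add]
      have h7 : (K : ℝ) ≤ (cl σ (z i) : ℝ) := by
        push Not at hc
        exact_mod_cast hc.le
      exact pow_le_pow_left₀ h0 (by rw [h2]; linarith) r
  refine (sum_le_sum fun z _ => h1 z).trans ?_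
  have h2 := sum1 (V := V) i (fun v => (if cl σ v ≤ K then (1 : ℝ) else 0) * n ^ r + (n - K) ^ r)
  rw [← hn', Fintype.card_fin] at h2
  have h3 : ∑ v : V, (if cl σ v ≤ K then (1 : ℝ) else 0) = n * small K σ := by
    unfold small
    rw [Nat.card_eq_fintype_card, Fintype.card_subtype, sum_boole, ← hn']
    field_simp
  have h3' : ∑ v : V, ((if cl σ v ≤ K then (1 : ℝ) else 0) * n ^ r + (n - K) ^ r) =
      n * small K σ * n ^ r + n * (n - K) ^ r := by
    rw [sum_add_distrib, ← sum_mul, h3, sum_const, card_univ, nsmul_eq_mul, ← hn']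
  rw [h3'] at h2
  have h4 : (n - K) ^ r = n ^ r * (1 - (K : ℝ) / n) ^ r := by
    rw [← mul_pow, mul_sub, mul_one, mul_div_cancel₀ _ hn.ne']
  have h5 : n * ∑ z : Fin k → V,
      (fun v => (if cl σ v ≤ K then (1 : ℝ) else 0) * n ^ r + (n - K) ^ r) (z i) =
      n * (n ^ (k + r) * (small K σ + (1 - (K : ℝ) / n) ^ r)) := by
    simp only at h2 ⊢
    rw [h2, h4, pow_add]
    ring
  exact (mul_left_cancel₀ hn.ne' h5).le

open Classical in
/-- the sum of the events `C` -/
theorem sumC [Nonempty V] (σ : Perm V) (k r : ℕ) (i j : Fin k) (hij : i ≠ j) :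
    ∑ z : Fin k → V, ∑ u : Fin r → V, ∑ t ∈ range (Fintype.card V),
        (if CC σ t (z i) (z j) u then (1 : ℝ) else 0) ≤
      (Fintype.card V : ℝ) ^ (k + r) * (1 / Fintype.card V + 1 / (r + 1)) := by
  have hn : (0 : ℝ) < Fintype.card V := by exact_mod_cast Fintype.card_pos
  set n : ℝ := (Fintype.card V : ℝ) with hn'
  have h1 : ∑ z : Fin k → V, ∑ u : Fin r → V, ∑ t ∈ range (Fintype.card V),
        (if CC σ t (z i) (z j) u then (1 : ℝ) else 0) ≤
      ∑ t ∈ range (Fintype.card V), ∑ z : Fin k → V,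
        (if z j = (σ ^ t) (z i) then (n - t) ^ r else 0) := by
    rw [sum_comm (s := range (Fintype.card V))]
    refine sum_le_sum fun z _ => ?_
    rw [sum_comm]
    refine sum_le_sum fun t ht => ?_
    exact sumU_C σ t (mem_range.1 ht).le (z i) (z j)
  refine h1.trans ?_
  have h2 : ∀ t : ℕ, ∑ z : Fin k → V, (if z j = (σ ^ t) (z i) then (n - t) ^ r else 0) =
      n ^ k / n * (n - t) ^ r := by
    intro t
    have h3 := sum2 (V := V) i j hij (fun v w => if w = (σ ^ t) v then (n - t) ^ r else 0)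
    simp only [sum_ite_eq', mem_univ, if_true, sum_const, card_univ, nsmul_eq_mul,
      Fintype.card_fin] at h3
    rw [← hn'] at h3
    have h4 : n ^ 2 * ∑ z : Fin k → V, (if z j = (σ ^ t) (z i) then (n - t) ^ r else 0) =
        n ^ 2 * (n ^ k / n * (n - t) ^ r) := by
      rw [h3]
      field_simp
    exact mul_left_cancel₀ (by positivity) h4
  simp only [h2]
  rw [← mul_sum]
  have h3 := sum_pow_le (Fintype.card V) r
  rw [← hn'] at h3
  have h4 : (0 : ℝ) ≤ n ^ k / n := by positivity
  refine (mul_le_mul_of_nonneg_left h3 h4).trans (le_of_eq ?_)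
  have h5 : (0 : ℝ) < (r : ℝ) + 1 := by positivity
  rw [pow_succ, pow_add]
  field_simp
  ring

open Classical in
/-- the sum of the events `A` -/
theorem sumA [Nonempty V] (k r : ℕ) (i j : Fin k) :
    ∑ z : Fin k → V, ∑ u : Fin r → V,
        (∑ l ∈ univ.filter (fun l : Fin k => l ≠ i ∧ l ≠ j), (if z i = z l then (1 : ℝ) else 0) +
          ∑ m : Fin r, (if z i = u m then (1 : ℝ) else 0)) ≤
      (Fintype.card V : ℝ) ^ (k + r) * ((k + r) / Fintype.card V) := by
  have hn : (0 : ℝ) < Fintype.card V := by exact_mod_cast Fintype.card_pos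
  set n : ℝ := (Fintype.card V : ℝ) with hn'
  have h1 : ∑ z : Fin k → V, ∑ u : Fin r → V,
        (∑ l ∈ univ.filter (fun l : Fin k => l ≠ i ∧ l ≠ j), (if z i = z l then (1 : ℝ) else 0) +
          ∑ m : Fin r, (if z i = u m then (1 : ℝ) else 0)) =
      n ^ r * (∑ l ∈ univ.filter (fun l : Fin k => l ≠ i ∧ l ≠ j), ∑ z : Fin k → V,
        (if z i = z l then (1 : ℝ) else 0)) +
      ∑ z : Fin k → V, ∑ m : Fin r, ∑ u : Fin r → V, (if z i = u m then (1 : ℝ) else 0) := by
    simp only [sum_add_distrib]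
    congr 1
    · rw [sum_comm (s := univ.filter (fun l : Fin k => l ≠ i ∧ l ≠ j)), mul_sum]
      refine sum_congr rfl fun z _ => ?_
      rw [sum_const, card_univ, nsmul_eq_mul, Fintype.card_fun, Fintype.card_fin]
      push_cast
      rw [← hn']
    · refine sum_congr rfl fun z _ => ?_
      rw [sum_comm]
  rw [h1]
  have h2 : ∀ z : Fin k → V, ∑ m : Fin r, ∑ u : Fin r → V, (if z i = u m then (1 : ℝ) else 0) =
      r * (n ^ r / n) := by
    intro z
    have : ∀ m : Fin r, ∑ u : Fin r → V, (if z i = u m then (1 : ℝ) else 0) = n ^ r / n := by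
      intro m
      have h4 := eq_count' (V := V) (z i) m
      rw [← hn'] at h4
      rw [← h4]
    simp only [this, sum_const, card_univ, Fintype.card_fin, nsmul_eq_mul]
  simp only [h2]
  rw [sum_const, card_univ, nsmul_eq_mul, Fintype.card_fun, Fintype.card_fin]
  have h3 : ∀ l ∈ univ.filter (fun l : Fin k => l ≠ i ∧ l ≠ j), ∑ z : Fin k → V,
      (if z i = z l then (1 : ℝ) else 0) = n ^ k / n := by
    intro l hl
    rw [mem_filter] at hl
    have h4 := eq_count (V := V) i l (Ne.symm hl.2.1)
    rw [← hn', Fintype.card_fin] at h4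
    rw [← h4]
  rw [sum_congr rfl h3, sum_const, nsmul_eq_mul]
  have h5 : ((univ.filter (fun l : Fin k => l ≠ i ∧ l ≠ j)).card : ℝ) ≤ k := by
    have := card_le_univ (univ.filter (fun l : Fin k => l ≠ i ∧ l ≠ j))
    rw [Fintype.card_fin] at this
    exact_mod_cast this
  push_cast
  rw [← hn']
  have h6 : n ^ r * (((univ.filter (fun l : Fin k => l ≠ i ∧ l ≠ j)).card : ℝ) * (n ^ k / n)) ≤
      n ^ r * ((k : ℝ) * (n ^ k / n)) := by
    gcongr
  refine (add_le_add_left h6 _).trans (le_of_eq ?_)
  rw [pow_add]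
  field_simp

/-- few pairs of tuples are not separated -/
theorem cnt : S_CNT := by
  classical
  intro V _ _ _ σ k r K i j hij hr hK
  have hn : (0 : ℝ) < Fintype.card V := by exact_mod_cast Fintype.card_pos
  have e0 : (Nat.card {b : (Fin k → V) × (Fin r → V) //
        ¬ Sep σ (marks b.1 i j b.2) (b.1 i) (b.1 j)} : ℝ) =
      ∑ z : Fin k → V, ∑ u : Fin r → V,
        (if ¬ Sep σ (marks z i j u) (z i) (z j) then (1 : ℝ) else 0) := by
    rw [Nat.card_eq_fintype_card, Fintype.card_subtype, ← Fintype.sum_prod_type', sum_boole]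
  rw [e0]
  have key : ∀ (z : Fin k → V) (u : Fin r → V),
      (if ¬ Sep σ (marks z i j u) (z i) (z j) then (1 : ℝ) else 0) ≤
      (∑ l ∈ univ.filter (fun l : Fin k => l ≠ i ∧ l ≠ j), (if z i = z l then (1 : ℝ) else 0) +
          ∑ m : Fin r, (if z i = u m then (1 : ℝ) else 0)) +
      (∑ l ∈ univ.filter (fun l : Fin k => l ≠ j ∧ l ≠ i), (if z j = z l then (1 : ℝ) else 0) +
          ∑ m : Fin r, (if z j = u m then (1 : ℝ) else 0)) +
      (if ∀ m, ¬ σ.SameCycle (z i) (u m) then (1 : ℝ) else 0) +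
      (if ∀ m, ¬ σ.SameCycle (z j) (u m) then (1 : ℝ) else 0) +
      ∑ t ∈ range (Fintype.card V), (if CC σ t (z i) (z j) u then (1 : ℝ) else 0) +
      ∑ t ∈ range (Fintype.card V), (if CC σ t (z j) (z i) u then (1 : ℝ) else 0) := by
    intro z u
    have n1 : ∀ a b : Fin k, 0 ≤ ∑ l ∈ univ.filter (fun l : Fin k => l ≠ a ∧ l ≠ b),
        (if z a = z l then (1 : ℝ) else 0) := by
      intro a b
      refine sum_nonneg fun l _ => ?_
      split_ifs <;> norm_num
    have n2 : ∀ a : Fin k, 0 ≤ ∑ m : Fin r, (if z a = u m then (1 : ℝ) else 0) := by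
      intro a
      refine sum_nonneg fun l _ => ?_
      split_ifs <;> norm_num
    have n3 : ∀ a : Fin k, 0 ≤ (if ∀ m, ¬ σ.SameCycle (z a) (u m) then (1 : ℝ) else 0) := by
      intro a
      split_ifs <;> norm_num
    have n4 : ∀ a b : Fin k, 0 ≤ ∑ t ∈ range (Fintype.card V),
        (if CC σ t (z a) (z b) u then (1 : ℝ) else 0) := by
      intro a b
      refine sum_nonneg fun l _ => ?_
      split_ifs <;> norm_num
    have m1 := n1 i j
    have m1' := n1 j i
    have m2 := n2 i
    have m2' := n2 j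
    have m3 := n3 i
    have m3' := n3 j
    have m4 := n4 i j
    have m4' := n4 j i
    by_cases hS : Sep σ (marks z i j u) (z i) (z j)
    · rw [if_neg (by simpa using hS)]
      linarith
    rw [if_pos hS]
    have hA : ∀ a b : Fin k, z a ∈ marks z a b u → 1 ≤
        ∑ l ∈ univ.filter (fun l : Fin k => l ≠ a ∧ l ≠ b), (if z a = z l then (1 : ℝ) else 0) +
          ∑ m : Fin r, (if z a = u m then (1 : ℝ) else 0) := by
      intro a b hmem
      unfold marks at hmem
      rw [mem_union, mem_image, mem_image] at hmem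
      rcases hmem with ⟨l, hl, hl2⟩ | ⟨m, _, hm⟩
      · have h1 := single_le_sum (f := fun l => (if z a = z l then (1 : ℝ) else 0))
          (s := univ.filter (fun l : Fin k => l ≠ a ∧ l ≠ b))
          (fun l _ => by split_ifs <;> norm_num) hl
        rw [if_pos hl2.symm] at h1
        have := n2 a
        linarith
      · have h1 := single_le_sum (f := fun m => (if z a = u m then (1 : ℝ) else 0))
          (s := (univ : Finset (Fin r)))
          (fun l _ => by split_ifs <;> norm_num) (mem_univ m)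
        rw [if_pos hm.symm] at h1
        have := n1 a b
        linarith
    have hC : ∀ a b : Fin k, (∃ t < Fintype.card V, CC σ t (z a) (z b) u) →
        1 ≤ ∑ t ∈ range (Fintype.card V), (if CC σ t (z a) (z b) u then (1 : ℝ) else 0) := by
      rintro a b ⟨t, ht1, ht2⟩
      have h1 := single_le_sum (f := fun t => (if CC σ t (z a) (z b) u then (1 : ℝ) else 0))
          (s := range (Fintype.card V))
          (fun l _ => by split_ifs <;> norm_num) (mem_range.2 ht1)
      rw [if_pos ht2] at h1
      exact h1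
    have hu : ∀ m, u m ∈ marks z i j u := by
      intro m
      unfold marks
      exact mem_union_right _ (mem_image_of_mem _ (mem_univ m))
    have hsymm : marks z i j u = marks z j i u := by
      unfold marks
      congr 2
      ext l
      simp only [mem_filter, mem_univ, true_and, and_comm]
    rcases logic σ _ u hu (z i) (z j) hS with h | h | h | h | h | h
    · have := hA i j h
      linarith
    · rw [hsymm] at h
      have := hA j i h
      linarith
    · rw [if_pos h]
      linarith
    · have h' : (if ∀ m, ¬ σ.SameCycle (z j) (u m) then (1 : ℝ) else 0) = 1 := if_pos h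
      rw [h']
      linarith
    · have := hC i j h
      linarith
    · have := hC j i h
      linarith
  refine (sum_le_sum fun z _ => sum_le_sum fun u _ => key z u).trans ?_
  simp only [sum_add_distrib]
  have a1 := sumA (V := V) k r i j
  have a2 := sumA (V := V) k r j i
  have b1 := sumB σ k r K i hK
  have b2 := sumB σ k r K j hK
  have c1 := sumC σ k r i j hij
  have c2 := sumC σ k r j i hij.symm
  simp only [sum_add_distrib] at a1 a2
  refine le_trans (add_le_add (add_le_add (add_le_add (add_le_add (add_le_add a1 a2) b1) b2) c1) c2)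
    (le_of_eq ?_)
  have h5 : (0 : ℝ) < (r : ℝ) + 1 := by positivity
  field_simp
  ring

end Pool.Agent.Y314.RS
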