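import Pool.Agent.Y105.RS.Stm

set_option autoImplicit false

open Finset Equiv

namespace Pool.Agent.Y314.RS

open Pool.Agent.Y105.RS

variable {V : Type} [Fintype V] [DecidableEq V]

omit [DecidableEq V] in
/-- existence of the induced permutation -/
theorem ind_exists {k : ℕ} (σ : Perm V) (z : Fin k → V) (hz : Function.Injective z) :
    ∃ π : Perm (Fin k), Ind σ z π := by
  classical
  have h1 : ∀ i, ∃ n : ℕ, 1 ≤ n ∧ (σ ^ n) (z i) ∈ Set.range z := by
    intro i
    refine ⟨orderOf σ, orderOf_pos σ, i, ?_⟩
    rw [pow_orderOf_eq_one]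
    rfl
  have h2 : ∀ i, ∃ n : ℕ, 1 ≤ n ∧ (∃ l, z l = (σ ^ n) (z i)) ∧
      ∀ p, 1 ≤ p → p < n → (σ ^ p) (z i) ∉ Set.range z := by
    intro i
    refine ⟨Nat.find (h1 i), (Nat.find_spec (h1 i)).1, (Nat.find_spec (h1 i)).2, ?_⟩
    intro p hp1 hp2 hp3
    exact Nat.find_min (h1 i) hp2 ⟨hp1, hp3⟩
  choose n hn1 hn2 hn3 using h2
  choose f hf using hn2
  have key : ∀ i i', f i = f i' → n i ≤ n i' → i = i' := by
    intro i i' hff hle
    have h3 : (σ ^ n i) (z i) = (σ ^ n i') (z i') := by rw [← hf i, ← hf i', hff]
    have h4 : z i = (σ ^ (n i' - n i)) (z i') := by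
      have h5 : (σ ^ n i') (z i') = (σ ^ n i) ((σ ^ (n i' - n i)) (z i')) := by
        rw [← Perm.mul_apply, ← pow_add, Nat.add_sub_cancel' hle]
      rw [h5] at h3
      exact (σ ^ n i).injective h3
    rcases Nat.eq_zero_or_pos (n i' - n i) with h5 | h5
    · rw [h5, pow_zero] at h4
      exact hz h4
    · exfalso
      refine hn3 i' (n i' - n i) h5 ?_ ⟨i, h4⟩
      have := hn1 i
      have := hn1 i'
      omega
  have hinj : Function.Injective f := by
    intro i i' hff
    rcases le_total (n i) (n i') with h | h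
    · exact key i i' hff h
    · exact (key i' i hff.symm h).symm
  refine ⟨Equiv.ofBijective f ((Finite.injective_iff_bijective).1 hinj), fun i => ?_⟩
  exact ⟨n i, hn1 i, (hf i).symm, hn3 i⟩

omit [Fintype V] [DecidableEq V] in
/-- uniqueness of the induced permutation -/
theorem ind_unique {k : ℕ} (σ : Perm V) (z : Fin k → V) (hz : Function.Injective z)
    (π π' : Perm (Fin k)) (h : Ind σ z π) (h' : Ind σ z π') : π = π' := by
  ext i
  obtain ⟨n, hn1, hn2, hn3⟩ := h i
  obtain ⟨n', hn1', hn2', hn3'⟩ := h' i
  have : n = n' := by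
    rcases lt_trichotomy n n' with h1 | h1 | h1
    · exact absurd ⟨_, hn2.symm⟩ (hn3' n hn1 h1)
    · exact h1
    · exact absurd ⟨_, hn2'.symm⟩ (hn3 n' hn1' h1)
  subst this
  rw [hn2] at hn2'
  rw [hz hn2']

omit [Fintype V] [DecidableEq V] in
theorem pow_back (σ : Perm V) {s t : ℕ} (hst : s ≤ t) (x y : V) (h : (σ ^ s) x = (σ ^ t) y) :
    x = (σ ^ (t - s)) y := by
  have h5 : (σ ^ t) y = (σ ^ s) ((σ ^ (t - s)) y) := by
    rw [← Perm.mul_apply, ← pow_add, Nat.add_sub_cancel' hst]
  rw [h5] at h
  exact (σ ^ s).injective h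

omit [Fintype V] [DecidableEq V] in
/-- moving a marked point forward -/
theorem move_fwd {k : ℕ} (σ : Perm V) (z : Fin k → V) (hz : Function.Injective z) (i : Fin k)
    (t : ℕ) (ht : 1 ≤ t) (hno : ∀ s, 1 ≤ s → s ≤ t → (σ ^ s) (z i) ∉ Set.range z)
    (π : Perm (Fin k)) (h : Ind σ z π) : Ind σ (Function.update z i ((σ ^ t) (z i))) π := by
  have hadd : ∀ (p q : ℕ) (x : V), (σ ^ p) ((σ ^ q) x) = (σ ^ (p + q)) x := by
    intro p q x
    rw [← Perm.mul_apply, ← pow_add]
  -- a point outside of the old marks and different from the new one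
  have hran : ∀ y : V, y ∉ Set.range z → y ≠ (σ ^ t) (z i) →
      y ∉ Set.range (Function.update z i ((σ ^ t) (z i))) := by
    rintro y h1 h2 ⟨l, hl⟩
    by_cases hli : l = i
    · rw [hli, Function.update_self] at hl
      exact h2 hl.symm
    · rw [Function.update_of_ne hli] at hl
      exact h1 ⟨l, hl⟩
  have hran2 : z i ∉ Set.range (Function.update z i ((σ ^ t) (z i))) := by
    rintro ⟨l, hl⟩
    by_cases hli : l = i
    · rw [hli, Function.update_self] at hl
      exact hno t ht le_rfl ⟨i, hl.symm⟩
    · rw [Function.update_of_ne hli] at hl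
      exact hli (hz hl)
  intro l
  obtain ⟨n, hn1, hn2, hn3⟩ := h l
  by_cases hl : l = i
  · subst hl
    by_cases hπ : π l = l
    · rw [hπ] at hn2
      refine ⟨n, hn1, ?_, ?_⟩
      · rw [hπ, Function.update_self, hadd, add_comm, ← hadd, hn2]
      · intro p hp1 hp2
        rw [Function.update_self, hadd]
        rcases lt_trichotomy (p + t) n with h1 | h1 | h1
        · apply hran _ (hn3 (p + t) (by omega) h1)
          intro heq
          rw [add_comm, ← hadd] at heq
          exact hn3 p hp1 hp2 ⟨l, ((σ ^ t).injective heq).symm⟩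
        · rw [h1, hn2]
          exact hran2
        · have h2 : (σ ^ (p + t)) (z l) = (σ ^ (p + t - n)) (z l) := by
            have : p + t = (p + t - n) + n := by omega
            conv_lhs => rw [this, ← hadd, hn2]
          apply hran
          · rw [h2]
            exact hno (p + t - n) (by omega) (by omega)
          · intro heq
            rw [add_comm, ← hadd] at heq
            exact hn3 p hp1 hp2 ⟨l, ((σ ^ t).injective heq).symm⟩
    · have htn : t < n := by
        by_contra hc
        exact hno n hn1 (by omega) ⟨_, hn2.symm⟩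
      refine ⟨n - t, by omega, ?_, ?_⟩
      · rw [Function.update_self, Function.update_of_ne hπ, hadd, Nat.sub_add_cancel htn.le, hn2]
      · intro p hp1 hp2
        rw [Function.update_self, hadd]
        apply hran _ (hn3 (p + t) (by omega) (by omega))
        intro heq
        rw [add_comm, ← hadd] at heq
        exact hn3 p hp1 (by omega) ⟨l, ((σ ^ t).injective heq).symm⟩
  · have hne : ∀ p, 1 ≤ p → p < n → (σ ^ p) (z l) ≠ (σ ^ t) (z i) := by
      intro p hp1 hp2 heq
      rcases le_total p t with h1 | h1
      · have h2 := pow_back σ h1 _ _ heq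
        rcases Nat.eq_zero_or_pos (t - p) with h3 | h3
        · rw [h3, pow_zero] at h2
          exact hl (hz h2)
        · exact hno (t - p) h3 (by omega) ⟨l, h2⟩
      · have h2 := pow_back σ h1 _ _ heq.symm
        rcases Nat.eq_zero_or_pos (p - t) with h3 | h3
        · rw [h3, pow_zero] at h2
          exact hl (hz h2.symm)
        · exact hn3 (p - t) h3 (by omega) ⟨i, h2⟩
    by_cases hπ : π l = i
    · rw [hπ] at hn2
      refine ⟨n + t, by omega, ?_, ?_⟩
      · rw [hπ, Function.update_self, Function.update_of_ne hl, add_comm, ← hadd, hn2]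
      · intro p hp1 hp2
        rw [Function.update_of_ne hl]
        rcases lt_trichotomy p n with h1 | h1 | h1
        · exact hran _ (hn3 p hp1 h1) (hne p hp1 h1)
        · rw [h1, hn2]
          exact hran2
        · have h2 : (σ ^ p) (z l) = (σ ^ (p - n)) (z i) := by
            have : p = (p - n) + n := by omega
            conv_lhs => rw [this, ← hadd, hn2]
          rw [h2]
          apply hran _ (hno (p - n) (by omega) (by omega))
          intro heq
          have h3 := pow_back σ (by omega : p - n ≤ t) _ _ heq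
          exact hno (t - (p - n)) (by omega) (by omega) ⟨i, h3⟩
    · refine ⟨n, hn1, ?_, ?_⟩
      · rw [Function.update_of_ne hl, Function.update_of_ne hπ, hn2]
      · intro p hp1 hp2
        rw [Function.update_of_ne hl]
        exact hran _ (hn3 p hp1 hp2) (hne p hp1 hp2)

omit [Fintype V] in
/-- the first point is unique -/
theorem fwd_unique {σ : Perm V} {D : Finset V} {a d d' : V} (h : Fwd σ D a d)
    (h' : Fwd σ D a d') : d = d' := by
  obtain ⟨h1, n, h2, h3⟩ := h
  obtain ⟨h1', n', h2', h3'⟩ := h'
  rcases lt_trichotomy n n' with h4 | h4 | h4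
  · exact absurd (h2 ▸ h1) (h3' n h4)
  · rw [← h2, ← h2', h4]
  · exact absurd (h2' ▸ h1') (h3 n' h4)

omit [Fintype V] in
/-- points on the way have the same first point -/
theorem fwd_step {σ : Perm V} {D : Finset V} {a d : V} {n s : ℕ} (hd : d ∈ D)
    (h1 : (σ ^ n) a = d) (h2 : ∀ p < n, (σ ^ p) a ∉ D) (hs : s ≤ n) : Fwd σ D ((σ ^ s) a) d := by
  refine ⟨hd, n - s, ?_, ?_⟩
  · rw [← Perm.mul_apply, ← pow_add, Nat.sub_add_cancel hs, h1]
  · intro p hp
    rw [← Perm.mul_apply, ← pow_add]
    exact h2 _ (by omega)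

/-- moving one point inside its arc, forward -/
theorem one_fwd {k : ℕ} (σ : Perm V) (z : Fin k → V) (hz : Function.Injective z) (i j : Fin k)
    (D : Finset V) (d d' a' : V) (hD : ∀ l, l ≠ i → l ≠ j → z l ∈ D)
    (hdd : d ≠ d') (n n' : ℕ) (hd : d ∈ D) (h1 : (σ ^ n) (z i) = d)
    (h2 : ∀ p < n, (σ ^ p) (z i) ∉ D) (h1' : (σ ^ n') a' = d)
    (ha' : a' ∉ D) (hnn : n' < n)
    (hj : Fwd σ D (z j) d') (π : Perm (Fin k)) :
    Ind σ z π → Ind σ (Function.update z i a') π := by
  intro h
  have e1 : a' = (σ ^ (n - n')) (z i) := pow_back σ hnn.le _ _ (by rw [h1, h1'])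
  have hn' : 1 ≤ n' := by
    by_contra hc
    have : n' = 0 := by omega
    rw [this, pow_zero] at h1'
    exact ha' (by rw [show a' = d from h1']; exact hd)
  rw [e1]
  refine move_fwd σ z hz i (n - n') (by omega) ?_ π h
  rintro s hs1 hs2 ⟨l, hl⟩
  by_cases hli : l = i
  · subst hli
    have h3 : (σ ^ (n - s)) (z l) = d := by
      have h4 : (σ ^ (n - s)) ((σ ^ s) (z l)) = d := by
        rw [← Perm.mul_apply, ← pow_add, Nat.sub_add_cancel (by omega), h1]
      rwa [← hl] at h4
    exact h2 (n - s) (by omega) (by rw [h3]; exact hd)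
  · by_cases hlj : l = j
    · subst hlj
      have h3 := fwd_step hd h1 h2 (by omega : s ≤ n)
      rw [← hl] at h3
      exact hdd (fwd_unique h3 hj)
    · have := hD l hli hlj
      rw [hl] at this
      exact h2 s (by omega) this

/-- moving one point inside its arc -/
theorem one_move {k : ℕ} (σ : Perm V) (z : Fin k → V) (hz : Function.Injective z) (i j : Fin k)
    (D : Finset V) (d d' a' : V) (hij : i ≠ j) (hD : ∀ l, l ≠ i → l ≠ j → z l ∈ D)
    (hzi : z i ∉ D) (ha' : a' ∉ D) (hdd : d ≠ d') (h1 : Fwd σ D (z i) d) (h2 : Fwd σ D a' d)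
    (hj : Fwd σ D (z j) d') (π : Perm (Fin k)) :
    Function.Injective (Function.update z i a') ∧
      (Ind σ z π → Ind σ (Function.update z i a') π) := by
  have hinj : Function.Injective (Function.update z i a') := by
    have hne : ∀ l, l ≠ i → z l ≠ a' := by
      intro l hl heq
      by_cases hlj : l = j
      · subst hlj
        rw [heq] at hj
        exact hdd (fwd_unique h2 hj)
      · exact ha' (heq ▸ hD l hl hlj)
    intro l l' hll
    by_cases h3 : l = i
    · by_cases h4 : l' = i
      · rw [h3, h4]
      · rw [h3, Function.update_self, Function.update_of_ne h4] at hll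
        exact absurd hll.symm (hne l' h4)
    · by_cases h4 : l' = i
      · rw [h4, Function.update_self, Function.update_of_ne h3] at hll
        exact absurd hll (hne l h3)
      · rw [Function.update_of_ne h3, Function.update_of_ne h4] at hll
        exact hz hll
  refine ⟨hinj, fun h => ?_⟩
  obtain ⟨hd, n, h3, h4⟩ := h1
  obtain ⟨_, n', h3', h4'⟩ := h2
  rcases lt_trichotomy n' n with h5 | h5 | h5
  · exact one_fwd σ z hz i j D d d' a' hD hdd n n' hd h3 h4 h3' ha' h5 hj π h
  · have h6 : z i = a' := by
      rw [← h5, ← h3'] at h3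
      exact (σ ^ n').injective h3
    rw [← h6, Function.update_eq_self]
    exact h
  · obtain ⟨π', hπ'⟩ := ind_exists σ _ hinj
    have h6 := one_fwd σ (Function.update z i a') hinj i j D d d' (z i)
      (by
        intro l hl1 hl2
        rw [Function.update_of_ne hl1]
        exact hD l hl1 hl2) hdd n' n hd
      (by rw [Function.update_self]; exact h3') (by rw [Function.update_self]; exact h4') h3
      hzi h5 (by rw [Function.update_of_ne hij.symm]; exact hj) π' hπ'
    rw [Function.update_idem, Function.update_eq_self] at h6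
    rw [ind_unique σ z hz π π' h h6]
    exact hπ'

/-- the induced permutation does not change when two separated marked points move -/
theorem inv : S_INV := by
  intro V _ _ σ k z z' i j D d d' hij hz hz' hD hzi hzj hzi' hzj' hdd hi hi' hj hj' π hπ
  obtain ⟨hinj1, himp1⟩ := one_move σ z hz i j D d d' (z' i) hij (fun l h1 h2 => (hD l h1 h2).2)
    hzi hzi' hdd hi hi' hj π
  have h1 := himp1 hπ
  obtain ⟨_, himp2⟩ := one_move σ (Function.update z i (z' i)) hinj1 j i D d' d (z' j) hij.symm
    (fun l h1 h2 => by
      rw [Function.update_of_ne h2]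
      exact (hD l h2 h1).2)
    (by rw [Function.update_of_ne hij.symm]; exact hzj) hzj' hdd.symm
    (by rw [Function.update_of_ne hij.symm]; exact hj) hj'
    (by rw [Function.update_self]; exact hi') π
  have h2 := himp2 h1
  have h3 : Function.update (Function.update z i (z' i)) j (z' j) = z' := by
    funext l
    by_cases hlj : l = j
    · rw [hlj, Function.update_self]
    · rw [Function.update_of_ne hlj]
      by_cases hli : l = i
      · rw [hli, Function.update_self]
      · rw [Function.update_of_ne hli]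
        exact (hD l hli hlj).1
  rwa [h3] at h2

end Pool.Agent.Y314.RS
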